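import Pool.Agent.Helper40.AV.Final2
import Pool.Agent.Helper15.KS.Ord

/-!
# Project KS (MP_768c9c_nt), design D5: upper bounds for the numbers of candidates in windows
-/

set_option autoImplicit false

open Filter Topology

namespace Pool.Agent.Helper40.KS

open Pool.Agent.Helper40.AV

open Classical in
/-- integers without small prime factors in a short window -/
theorem rough_up : ∃ C : ℝ, 0 < C ∧ ∃ K : ℕ, ∀ k : ℕ, K ≤ k → ∀ x h : ℕ,
    (2 : ℝ) ^ (0.38 * (k : ℝ)) ≤ h → ∀ T : Finset ℕ,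
    (∀ n ∈ T, x ≤ n ∧ n < x + h ∧ ∀ p : ℕ, p.Prime → p ∣ n → (2 : ℝ) ^ (0.19 * (k : ℝ)) < p) →
    (T.card : ℝ) ≤ C * (h / k) := by
  obtain ⟨z₁, hz₁⟩ := selUp'.1 2 (by norm_num) le_rfl 1 one_pos
  have hM := Pool.Agent.Helper9.AV.mertens3
  set g := Real.exp Real.eulerMascheroniConstant with hg
  have hg0 : 0 < g := Real.exp_pos _
  have h1 := hM.eventually_lt_const
    (show Real.exp (-Real.eulerMascheroniConstant) < 1 by
      have := Pool.Agent.Helper51.AV.gammaNum.2
      linarith)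
  obtain ⟨z₂, hz₂⟩ := eventually_atTop.1 h1
  have tz : Tendsto (fun k : ℕ => (2 : ℝ) ^ (0.19 * (k : ℝ))) atTop atTop := by
    have : Tendsto (fun k : ℕ => 0.19 * (k : ℝ)) atTop atTop :=
      tendsto_natCast_atTop_atTop.const_mul_atTop (by norm_num)
    exact (tendsto_rpow_atTop_of_base_gt_one 2 (by norm_num)).comp this
  obtain ⟨K, hK⟩ := eventually_atTop.1 ((tz.eventually_ge_atTop z₁).and
    (tz.eventually_ge_atTop z₂))
  refine ⟨(2 * g / 2 + 1) * (1 / (0.19 * Real.log 2)), by positivity, max K 1, ?_⟩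
  intro k hk x h hh T hT
  have hk1 : (1 : ℝ) ≤ k := by exact_mod_cast (le_max_right K 1).trans hk
  have hk0 : (0 : ℝ) < k := by linarith
  obtain ⟨b1, b2⟩ := hK k ((le_max_left K 1).trans hk)
  set z := (2 : ℝ) ^ (0.19 * (k : ℝ)) with hz
  have hz0 : 0 < z := Real.rpow_pos_of_pos (by norm_num) _
  have hlz : Real.log z = 0.19 * Real.log 2 * k := by
    rw [hz, Real.log_rpow (by norm_num)]; ring
  have hl2 : 0 < Real.log 2 := Real.log_pos (by norm_num)
  have c1 := hz₁ z b1 x h (by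
    rw [hz, ← Real.rpow_mul (by norm_num)]
    refine le_trans (le_of_eq ?_) hh
    congr 1; ring)
  have c2 := hz₂ z b2
  have hVV : VV z ≤ 1 / (0.19 * Real.log 2 * k) := by
    rw [le_div_iff₀ (by positivity)]
    rw [← hlz]
    exact c2.le
  have hsub : T ⊆ RS x h z := by
    intro n hn
    obtain ⟨d1, d2, d3⟩ := hT n hn
    unfold RS
    rw [Finset.mem_filter, Finset.mem_Ico]
    exact ⟨⟨d1, d2⟩, d3⟩
  have hcard : (T.card : ℝ) ≤ ((RS x h z).card : ℝ) := by exact_mod_cast Finset.card_le_card hsub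
  calc (T.card : ℝ) ≤ _ := hcard
    _ ≤ (2 * g / 2 + 1) * h * VV z := c1
    _ ≤ (2 * g / 2 + 1) * h * (1 / (0.19 * Real.log 2 * k)) :=
        mul_le_mul_of_nonneg_left hVV (by positivity)
    _ = _ := by field_simp

/-- products of two large primes in a short window -/
theorem pairs_rough : ∃ C : ℝ, 0 < C ∧ ∃ K : ℕ, ∀ k : ℕ, K ≤ k → ∀ x h : ℕ,
    (2 : ℝ) ^ (0.38 * (k : ℝ)) ≤ h → ∀ T : Finset (ℕ × ℕ),
    (∀ y ∈ T, y.1.Prime ∧ y.2.Prime ∧ (2 : ℝ) ^ (0.19 * (k : ℝ)) < y.1 ∧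
      (2 : ℝ) ^ (0.19 * (k : ℝ)) < y.2 ∧ x ≤ y.1 * y.2 ∧ y.1 * y.2 < x + h) →
    (T.card : ℝ) ≤ C * (h / k) := by
  classical
  obtain ⟨C, hC, K, H⟩ := rough_up
  refine ⟨2 * C, by positivity, K, fun k hk x h hh T hT => ?_⟩
  have h1 := H k hk x h hh (T.image fun y => y.1 * y.2) (by
    intro n hn
    obtain ⟨y, hy, rfl⟩ := Finset.mem_image.1 hn
    obtain ⟨a1, a2, a3, a4, a5, a6⟩ := hT y hy
    refine ⟨a5, a6, fun p hp hpd => ?_⟩
    rcases (Nat.Prime.dvd_mul hp).1 hpd with h | h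
    · rw [(Nat.prime_dvd_prime_iff_eq hp a1).1 h]; exact a3
    · rw [(Nat.prime_dvd_prime_iff_eq hp a2).1 h]; exact a4)
  have h2 : T.card ≤ 2 * (T.image fun y => y.1 * y.2).card := by
    refine Finset.card_le_mul_card_image T 2 ?_
    intro n hn
    obtain ⟨y, hy, hyn⟩ := Finset.mem_image.1 hn
    obtain ⟨a1, a2, a3, a4, a5, a6⟩ := hT y hy
    refine (Finset.card_le_card (t := {y, (y.2, y.1)}) ?_).trans Finset.card_le_two
    intro w hw
    rw [Finset.mem_filter] at hw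
    obtain ⟨hw, hwn⟩ := hw
    obtain ⟨b1, b2, -, -, -, -⟩ := hT w hw
    rw [Finset.mem_insert, Finset.mem_singleton]
    have e : w.1 * w.2 = y.1 * y.2 := by rw [hwn, ← hyn]
    have hd : w.1 ∣ y.1 * y.2 := ⟨w.2, e.symm⟩
    rcases (Nat.Prime.dvd_mul b1).1 hd with h | h
    · left
      have e1 := (Nat.prime_dvd_prime_iff_eq b1 a1).1 h
      rw [e1] at e
      exact Prod.ext e1 (Nat.eq_of_mul_eq_mul_left a1.pos e)
    · right
      have e1 := (Nat.prime_dvd_prime_iff_eq b1 a2).1 h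
      rw [e1, mul_comm y.1 y.2] at e
      exact Prod.ext e1 (Nat.eq_of_mul_eq_mul_left a2.pos e)
  calc (T.card : ℝ) ≤ 2 * ((T.image fun y => y.1 * y.2).card : ℝ) := by exact_mod_cast h2
    _ ≤ 2 * (C * (h / k)) := by linarith
    _ = _ := by ring

/-- Brun-Titchmarsh for products `q m` of two primes, `m` in a dyadic interval -/
theorem pairs_bt {θ₁ θ₂ : ℝ} (h1 : 0 < θ₁) (h2 : θ₂ < 0.498) : ∃ C : ℝ, 0 < C ∧ ∃ K : ℕ,
    ∀ k : ℕ, K ≤ k → ∀ mu : ℕ, θ₁ * k ≤ mu → (mu : ℝ) ≤ θ₂ * k → ∀ x h : ℕ,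
    (2 : ℝ) ^ (0.498 * (k : ℝ)) ≤ h → ∀ T : Finset (ℕ × ℕ),
    (∀ y ∈ T, y.1.Prime ∧ y.2.Prime ∧ 2 ^ mu < y.2 ∧ y.2 ≤ 2 * 2 ^ mu ∧
      x ≤ y.1 * y.2 ∧ y.1 * y.2 < x + h) →
    (T.card : ℝ) ≤ C * (h / k ^ 2) := by
  classical
  obtain ⟨B, hB, hbt⟩ := Pool.Agent.Helper15.KS.bt
  have hl2 : 0 < Real.log 2 := Real.log_pos (by norm_num)
  set ε := 0.498 - θ₂ with hε
  have hε0 : 0 < ε := by rw [hε]; linarith
  obtain ⟨K1, hK1⟩ := exists_nat_gt (4 / ε)
  obtain ⟨K2, hK2⟩ := exists_nat_gt (2 / θ₁)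
  set Q := B * (2 / (θ₁ * Real.log 2)) with hQ
  set P := B * 4 * (2 / (ε * Real.log 2)) with hP
  refine ⟨Q * P, by positivity, max (max K1 K2) 1, ?_⟩
  intro k hk mu hmu1 hmu2 x h hh T hT
  have hkK1 : (K1 : ℝ) ≤ k := by
    exact_mod_cast ((le_max_left K1 K2).trans (le_max_left _ 1)).trans hk
  have hkK2 : (K2 : ℝ) ≤ k := by
    exact_mod_cast ((le_max_right K1 K2).trans (le_max_left _ 1)).trans hk
  have hk1 : (1 : ℝ) ≤ k := by exact_mod_cast (le_max_right _ 1).trans hk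
  have hk0 : (0 : ℝ) < k := by linarith
  have hεk : 4 < ε * k := by
    rw [div_lt_iff₀ hε0] at hK1
    nlinarith
  have hθk : 2 < θ₁ * k := by
    rw [div_lt_iff₀ h1] at hK2
    nlinarith
  set M : ℕ := 2 ^ mu with hMdef
  have hM0 : 0 < M := by positivity
  have hMr : (M : ℝ) = (2 : ℝ) ^ (mu : ℝ) := by
    rw [hMdef]; push_cast; rw [Real.rpow_natCast]
  have hmu2' : (2 : ℝ) < mu := by linarith
  have hM2 : 2 ≤ M := by
    have : (2 : ℝ) ≤ M := by
      rw [hMr]
      calc (2 : ℝ) = (2 : ℝ) ^ (1 : ℝ) := (Real.rpow_one 2).symm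
        _ ≤ _ := Real.rpow_le_rpow_of_exponent_le (by norm_num) (by linarith)
    exact_mod_cast this
  -- number of the `m`
  set PMs := (Finset.Ico (M + 1) (M + 1 + M)).filter Nat.Prime with hPMs
  have hPM : (PMs.card : ℝ) ≤ Q * M / k := by
    have b := hbt (M + 1) M hM2
    refine b.trans ?_
    have hlM : Real.log M = mu * Real.log 2 := by
      rw [hMr, Real.log_rpow (by norm_num)]
    have hlMpos : θ₁ * k * Real.log 2 / 2 ≤ Real.log M := by
      rw [hlM]
      have : θ₁ * k * Real.log 2 ≤ mu * Real.log 2 := mul_le_mul_of_nonneg_right hmu1 hl2.le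
      have h0 : 0 < θ₁ * k * Real.log 2 := by positivity
      linarith
    have h0 : 0 < θ₁ * k * Real.log 2 / 2 := by positivity
    calc B * M / Real.log M ≤ B * M / (θ₁ * k * Real.log 2 / 2) :=
          div_le_div_of_nonneg_left (by positivity) h0 hlMpos
      _ = Q * M / k := by rw [hQ]; field_simp
  -- number of the `q` for given `m`
  have hfib : ∀ m ∈ PMs, ((T.filter fun y => y.2 = m).card : ℝ) ≤ P * (h / M) / k := by
    intro m hm
    rw [hPMs, Finset.mem_filter, Finset.mem_Ico] at hm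
    obtain ⟨⟨hm1, hm2⟩, hmp⟩ := hm
    have hm0 : 0 < m := hmp.pos
    set a := x / m with ha
    set L := h / m + 2 with hL
    have hL2 : 2 ≤ L := by rw [hL]; exact Nat.le_add_left 2 _
    have b := hbt a L hL2
    have hsub : (T.filter fun y => y.2 = m).card ≤ ((Finset.Ico a (a + L)).filter Nat.Prime).card := by
      refine Finset.card_le_card_of_injOn (fun y => y.1) ?_ ?_
      · intro y hy
        rw [Finset.mem_coe, Finset.mem_filter] at hy
        obtain ⟨hyT, hym⟩ := hy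
        obtain ⟨c1, c2, c3, c4, c5, c6⟩ := hT y hyT
        rw [hym] at c5 c6
        simp only [Finset.coe_filter, Finset.mem_Ico, Set.mem_ofPred_eq]
        refine ⟨⟨?_, ?_⟩, c1⟩
        · rw [ha]
          exact (Nat.div_le_div_right c5).trans (by rw [Nat.mul_div_cancel _ hm0])
        · rw [ha, hL]
          have e1 : y.1 ≤ (x + h) / m := by
            rw [Nat.le_div_iff_mul_le hm0]
            exact c6.le
          have e2 : (x + h) / m ≤ x / m + h / m + 1 := by
            rw [Nat.add_div hm0]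
            split_ifs <;> omega
          omega
      · intro y hy w hw hyw
        rw [Finset.mem_coe, Finset.mem_filter] at hy hw
        exact Prod.ext hyw (by rw [hy.2, hw.2])
    have hhm : (2 : ℝ) ^ (ε * k) / 2 ≤ (h : ℝ) / m := by
      have hmM : (m : ℝ) ≤ 2 * M := by
        have : m ≤ 2 * M := by omega
        exact_mod_cast this
      have hm0' : (0 : ℝ) < m := by exact_mod_cast hm0
      rw [le_div_iff₀ hm0']
      calc (2 : ℝ) ^ (ε * k) / 2 * m ≤ (2 : ℝ) ^ (ε * k) / 2 * (2 * M) :=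
            mul_le_mul_of_nonneg_left hmM (by positivity)
        _ = (2 : ℝ) ^ (ε * k) * (2 : ℝ) ^ (mu : ℝ) := by rw [hMr]; ring
        _ = (2 : ℝ) ^ (ε * k + mu) := by rw [← Real.rpow_add (by norm_num)]
        _ ≤ (2 : ℝ) ^ (0.498 * (k : ℝ)) := by
            apply Real.rpow_le_rpow_of_exponent_le (by norm_num)
            rw [hε]
            linarith
        _ ≤ h := hh
    have hLlow : (h : ℝ) / m ≤ L := by
      rw [hL]; push_cast
      have := Nat.lt_div_mul_add hm0 (a := h)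
      have hm0' : (0 : ℝ) < m := by exact_mod_cast hm0
      rw [div_le_iff₀ hm0']
      have h3 : (h : ℝ) < (h / m : ℕ) * m + m := by exact_mod_cast this
      nlinarith
    have hbig : (2 : ℝ) ≤ (2 : ℝ) ^ (ε * k) / 2 := by
      rw [le_div_iff₀ (by norm_num)]
      calc (2 : ℝ) * 2 = (2 : ℝ) ^ (2 : ℝ) := by norm_num
        _ ≤ _ := Real.rpow_le_rpow_of_exponent_le (by norm_num) (by linarith)
    have hLup : (L : ℝ) ≤ 2 * (h / m) := by
      rw [hL]; push_cast
      have h3 : ((h / m : ℕ) : ℝ) ≤ (h : ℝ) / m := Nat.cast_div_le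
      linarith
    have hLM : (L : ℝ) ≤ 2 * (h / M) := by
      refine hLup.trans ?_
      have hMm : (M : ℝ) ≤ m := by exact_mod_cast (by omega : M ≤ m)
      have hM0' : (0 : ℝ) < M := by exact_mod_cast hM0
      have : (h : ℝ) / m ≤ h / M := div_le_div_of_nonneg_left (by positivity) hM0' hMm
      linarith
    have hlog : ε * k * Real.log 2 / 2 ≤ Real.log L := by
      have h4 : (2 : ℝ) ^ (ε * k) / 2 ≤ L := hhm.trans hLlow
      have h5 : Real.log ((2 : ℝ) ^ (ε * k) / 2) ≤ Real.log L :=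
        Real.log_le_log (by positivity) h4
      rw [Real.log_div (by positivity) (by norm_num), Real.log_rpow (by norm_num)] at h5
      nlinarith
    have h0 : 0 < ε * k * Real.log 2 / 2 := by positivity
    calc ((T.filter fun y => y.2 = m).card : ℝ) ≤
          (((Finset.Ico a (a + L)).filter Nat.Prime).card : ℝ) := by exact_mod_cast hsub
      _ ≤ B * L / Real.log L := b
      _ ≤ B * (2 * (h / M)) / (ε * k * Real.log 2 / 2) := by
          apply div_le_div₀ (by positivity) _ h0 hlog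
          exact mul_le_mul_of_nonneg_left hLM hB.le
      _ ≤ P * (h / M) / k := by
          rw [hP]
          have hM0' : (0 : ℝ) < M := by exact_mod_cast hM0
          rw [div_le_div_iff₀ h0 hk0]
          have : B * 4 * (2 / (ε * Real.log 2)) * (↑h / ↑M) * (ε * ↑k * Real.log 2 / 2) =
            B * 4 * (h / M) * k := by field_simp
          rw [this]
          have h6 : 0 ≤ (h : ℝ) / M := by positivity
          nlinarith [mul_nonneg (mul_nonneg hB.le h6) hk0.le]
  have hsplit : T.card = ∑ m ∈ PMs, (T.filter fun y => y.2 = m).card := by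
    apply Finset.card_eq_sum_card_fiberwise
    intro y hy
    obtain ⟨c1, c2, c3, c4, c5, c6⟩ := hT y hy
    rw [hPMs, Finset.coe_filter, Set.mem_ofPred_eq, Finset.mem_Ico]
    refine ⟨⟨?_, ?_⟩, c2⟩
    · rw [hMdef]; omega
    · rw [hMdef]; omega
  have hM0' : (0 : ℝ) < M := by exact_mod_cast hM0
  calc (T.card : ℝ) = ∑ m ∈ PMs, ((T.filter fun y => y.2 = m).card : ℝ) := by
        rw [hsplit]; push_cast; rfl
    _ ≤ ∑ m ∈ PMs, P * (h / M) / k := Finset.sum_le_sum hfib
    _ = PMs.card * (P * (h / M) / k) := by rw [Finset.sum_const, nsmul_eq_mul]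
    _ ≤ (Q * M / k) * (P * (h / M) / k) :=
        mul_le_mul_of_nonneg_right hPM (by positivity)
    _ = Q * P * (h / k ^ 2) := by field_simp

end Pool.Agent.Helper40.KS
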