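import Pool.Agent.Helper40.KS.Win
import Pool.Agent.Helper16.KS.Defs

/-!
# Project KS (MP_768c9c_nt), design D5: the fields `win1`, `win2` of a control system from `many`
-/

set_option autoImplicit false

open Filter Topology

namespace Pool.Agent.Helper40.KS

open Pool.Agent.Helper16.KS

/-- classes 0 and 1: pairs of primes -/
theorem win_pairs {θ₁ θ₂ c d : ℝ} (h1 : 0.19 ≤ θ₁) (h2 : θ₂ < 0.498) (hc : 0 < c) :
    ∃ C₀ : ℝ, ∀ C : ℝ, C₀ ≤ C → ∃ K : ℕ, ∀ k : ℕ, K ≤ k → ∀ mu : ℕ, θ₁ * k ≤ mu →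
    (mu : ℝ) ≤ θ₂ * k → ∀ T : Finset (ℕ × ℕ),
    (∀ y ∈ T, y.1.Prime ∧ y.2.Prime ∧ 2 ^ mu < y.2 ∧ y.2 ≤ 2 * 2 ^ mu ∧ 2 ^ k ≤ y.1 * y.2) →
    c * 2 ^ ec d k / k ^ 2 ≤ (T.card : ℝ) →
    (∀ x h : ℕ, (2 : ℝ) ^ (0.498 * (k : ℝ)) ≤ h →
      ((T.filter (fun y => x ≤ y.1 * y.2 ∧ y.1 * y.2 < x + h)).card : ℝ) ≤
        C * (h / 2 ^ ec d k) * T.card) ∧
    ∀ x h : ℕ, (2 : ℝ) ^ (0.38 * (k : ℝ)) ≤ h →
      ((T.filter (fun y => x ≤ y.1 * y.2 ∧ y.1 * y.2 < x + h)).card : ℝ) ≤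
        C * k * (h / 2 ^ ec d k) * T.card := by
  obtain ⟨A, hA, KA, HA⟩ := pairs_bt (lt_of_lt_of_le (by norm_num) h1) h2
  obtain ⟨B, hB, KB, HB⟩ := pairs_rough
  refine ⟨max (A / c) (B / c), fun C hC => ?_⟩
  have hCA : A / c ≤ C := (le_max_left _ _).trans hC
  have hCB : B / c ≤ C := (le_max_right _ _).trans hC
  rw [div_le_iff₀ hc] at hCA hCB
  refine ⟨max (max KA KB) 4, ?_⟩
  intro k hk mu hmu1 hmu2 T hT hcard
  have hkA : KA ≤ k := ((le_max_left KA KB).trans (le_max_left _ 4)).trans hk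
  have hkB : KB ≤ k := ((le_max_right KA KB).trans (le_max_left _ 4)).trans hk
  have hk4 : (4 : ℝ) ≤ k := by exact_mod_cast (le_max_right _ 4).trans hk
  have hk0 : (0 : ℝ) < k := by linarith
  have hE : (0 : ℝ) < 2 ^ ec d k := by positivity
  have hC0 : 0 < C := by
    by_contra hcon
    rw [not_lt] at hcon
    nlinarith
  have key : ∀ h : ℕ, C * (h / 2 ^ ec d k) * (c * 2 ^ ec d k / k ^ 2) = C * c * (h / k ^ 2) := by
    intro h
    field_simp
  constructor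
  · intro x h hh
    have b := HA k hkA mu hmu1 hmu2 x h hh
      (T.filter (fun y => x ≤ y.1 * y.2 ∧ y.1 * y.2 < x + h)) (by
        intro y hy
        rw [Finset.mem_filter] at hy
        obtain ⟨a1, a2, a3, a4, -⟩ := hT y hy.1
        exact ⟨a1, a2, a3, a4, hy.2.1, hy.2.2⟩)
    calc _ ≤ A * (h / k ^ 2) := b
      _ ≤ C * c * (h / k ^ 2) := mul_le_mul_of_nonneg_right hCA (by positivity)
      _ = C * (h / 2 ^ ec d k) * (c * 2 ^ ec d k / k ^ 2) := (key h).symm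
      _ ≤ _ := mul_le_mul_of_nonneg_left hcard (by positivity)
  · intro x h hh
    have b := HB k hkB x h hh
      (T.filter (fun y => x ≤ y.1 * y.2 ∧ y.1 * y.2 < x + h)) (by
        intro y hy
        rw [Finset.mem_filter] at hy
        obtain ⟨a1, a2, a3, a4, a5⟩ := hT y hy.1
        have e1 : (2 : ℝ) ^ (0.19 * (k : ℝ)) < y.2 := by
          calc (2 : ℝ) ^ (0.19 * (k : ℝ)) ≤ (2 : ℝ) ^ (mu : ℝ) := by
                apply Real.rpow_le_rpow_of_exponent_le (by norm_num)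
                have : 0.19 * (k : ℝ) ≤ θ₁ * k := mul_le_mul_of_nonneg_right h1 hk0.le
                linarith
            _ < y.2 := by
                rw [Real.rpow_natCast]
                exact_mod_cast a3
        refine ⟨a1, a2, ?_, e1, hy.2.1, hy.2.2⟩
        have e2 : (2 : ℝ) ^ (k : ℝ) ≤ (y.1 : ℝ) * y.2 := by
          rw [Real.rpow_natCast]
          exact_mod_cast a5
        have e3 : (y.2 : ℝ) ≤ (2 : ℝ) ^ (1 + (mu : ℝ)) := by
          rw [Real.rpow_add (by norm_num), Real.rpow_one, Real.rpow_natCast]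
          exact_mod_cast a4
        by_contra hcon
        rw [not_lt] at hcon
        have e4 : (y.1 : ℝ) * y.2 ≤ (2 : ℝ) ^ (0.19 * (k : ℝ)) * (2 : ℝ) ^ (1 + (mu : ℝ)) :=
          mul_le_mul hcon e3 (by positivity) (by positivity)
        rw [← Real.rpow_add (by norm_num)] at e4
        have e5 : (2 : ℝ) ^ (0.19 * (k : ℝ) + (1 + (mu : ℝ))) < (2 : ℝ) ^ (k : ℝ) := by
          apply Real.rpow_lt_rpow_of_exponent_lt (by norm_num)
          nlinarith
        linarith)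
    calc _ ≤ B * (h / k) := b
      _ ≤ C * c * (h / k) := mul_le_mul_of_nonneg_right hCB (by positivity)
      _ = k * (C * c * (h / k ^ 2)) := by field_simp
      _ = k * (C * (h / 2 ^ ec d k) * (c * 2 ^ ec d k / k ^ 2)) := by rw [key h]
      _ ≤ k * (C * (h / 2 ^ ec d k) * T.card) :=
          mul_le_mul_of_nonneg_left (mul_le_mul_of_nonneg_left hcard (by positivity)) hk0.le
      _ = _ := by ring

/-- class 2: rough numbers -/
theorem win_rough {c d : ℝ} (hc : 0 < c) :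
    ∃ C₀ : ℝ, ∀ C : ℝ, C₀ ≤ C → ∃ K : ℕ, ∀ k : ℕ, K ≤ k → ∀ T : Finset (ℕ × ℕ),
    (∀ y ∈ T, ∀ p : ℕ, p.Prime → p ∣ y.1 * y.2 → (2 : ℝ) ^ (0.19 * (k : ℝ)) < p) →
    (∀ y ∈ T, ∀ w ∈ T, y.1 * y.2 = w.1 * w.2 → y = w) →
    c * 2 ^ ec d k / k ≤ (T.card : ℝ) →
    (∀ x h : ℕ, (2 : ℝ) ^ (0.498 * (k : ℝ)) ≤ h →
      ((T.filter (fun y => x ≤ y.1 * y.2 ∧ y.1 * y.2 < x + h)).card : ℝ) ≤
        C * (h / 2 ^ ec d k) * T.card) ∧
    ∀ x h : ℕ, (2 : ℝ) ^ (0.38 * (k : ℝ)) ≤ h →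
      ((T.filter (fun y => x ≤ y.1 * y.2 ∧ y.1 * y.2 < x + h)).card : ℝ) ≤
        C * k * (h / 2 ^ ec d k) * T.card := by
  classical
  obtain ⟨B, hB, KB, HB⟩ := rough_up
  refine ⟨B / c, fun C hC => ?_⟩
  rw [div_le_iff₀ hc] at hC
  refine ⟨max KB 1, ?_⟩
  intro k hk T hT hinj hcard
  have hkB : KB ≤ k := (le_max_left _ 1).trans hk
  have hk1 : (1 : ℝ) ≤ k := by exact_mod_cast (le_max_right _ 1).trans hk
  have hk0 : (0 : ℝ) < k := by linarith
  have hE : (0 : ℝ) < 2 ^ ec d k := by positivity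
  have hC0 : 0 < C := by
    by_contra hcon
    rw [not_lt] at hcon
    nlinarith
  have main : ∀ x h : ℕ, (2 : ℝ) ^ (0.38 * (k : ℝ)) ≤ h →
      ((T.filter (fun y => x ≤ y.1 * y.2 ∧ y.1 * y.2 < x + h)).card : ℝ) ≤
        C * (h / 2 ^ ec d k) * T.card := by
    intro x h hh
    set F := T.filter (fun y => x ≤ y.1 * y.2 ∧ y.1 * y.2 < x + h) with hF
    have hc1 : (F.image fun y => y.1 * y.2).card = F.card := by
      apply Finset.card_image_of_injOn
      intro y hy w hw hyw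
      exact hinj y (Finset.mem_filter.1 hy).1 w (Finset.mem_filter.1 hw).1 hyw
    have b := HB k hkB x h hh (F.image fun y => y.1 * y.2) (by
      intro n hn
      obtain ⟨y, hy, rfl⟩ := Finset.mem_image.1 hn
      rw [hF, Finset.mem_filter] at hy
      exact ⟨hy.2.1, hy.2.2, hT y hy.1⟩)
    rw [hc1] at b
    calc (F.card : ℝ) ≤ B * (h / k) := b
      _ ≤ C * c * (h / k) := mul_le_mul_of_nonneg_right hC (by positivity)
      _ = C * (h / 2 ^ ec d k) * (c * 2 ^ ec d k / k) := by field_simp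
      _ ≤ _ := mul_le_mul_of_nonneg_left hcard (by positivity)
  refine ⟨fun x h hh => main x h (le_trans ?_ hh), fun x h hh => (main x h hh).trans ?_⟩
  · apply Real.rpow_le_rpow_of_exponent_le (by norm_num)
    nlinarith
  · have h0 : 0 ≤ C * ((h : ℝ) / 2 ^ ec d k) * T.card := by positivity
    calc C * ((h : ℝ) / 2 ^ ec d k) * T.card ≤ k * (C * ((h : ℝ) / 2 ^ ec d k) * T.card) := by
          nlinarith
      _ = _ := by ring

end Pool.Agent.Helper40.KS
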